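import Pool.Agent.H43.TC.Targets2

/-!
# Packing (row PCK of the board te_modules, MP_183c3b_co)
-/

set_option autoImplicit false

namespace Pool.Agent.H49.TE

open Pool.Agent.H43.TC

theorem pck : T_PCK := by
  classical
  intro k n t _ c A _ h0 hA
  set S : Finset (Tor k n) := Finset.univ.filter (fun x => Good c t x) with hS
  have h1 : Set.ncard {x | Good c t x} = S.card := by
    rw [← Set.ncard_coe_finset]
    congr 1
    ext x
    simp [hS]
  rw [h1, ← Finset.card_erase_of_mem h0, ← Finset.card_product]
  unfold size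
  refine Finset.card_le_card_of_injOn (fun p : (Fin k → ℤ) × Tor k n => p.2 + pr p.1) ?_ ?_
  · rintro ⟨a, x⟩ hp
    simp only [Finset.coe_product, Set.mem_prod, Finset.mem_coe, Finset.mem_erase, hS,
      Finset.mem_filter, Finset.mem_univ, true_and] at hp ⊢
    obtain ⟨⟨ha0, haA⟩, hx⟩ := hp
    have := hA a haA 0 h0
    rw [sub_zero] at this
    exact hx.2 a ha0 this
  · rintro ⟨a, x⟩ hp ⟨b, y⟩ hq hpq
    simp only [Finset.coe_product, Set.mem_prod, Finset.mem_coe, Finset.mem_erase, hS,
      Finset.mem_filter, Finset.mem_univ, true_and] at hp hq hpq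
    obtain ⟨⟨ha0, haA⟩, hx⟩ := hp
    obtain ⟨⟨hb0, hbA⟩, hy⟩ := hq
    by_cases hab : a = b
    · subst hab
      have : x = y := add_right_cancel hpq
      rw [this]
    · exfalso
      have h2 : y = x + pr (a - b) := by
        rw [map_sub, ← add_sub_assoc, hpq]
        simp
      have h3 := hx.2 (a - b) (sub_ne_zero.2 hab) (hA a haA b hbA)
      rw [← h2, hy.1] at h3
      exact absurd h3 (by simp)

end Pool.Agent.H49.TE
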