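import Pool.Agent.H43.TC.Targets2

/-!
# Two steps and three steps (rows PFK and PF3 of the board te_modules, MP_183c3b_co)
-/

set_option autoImplicit false

namespace Pool.Agent.H49.TE

open Pool.Agent.H43.TC

theorem nrm_add_le {k : ℕ} (a b : Fin k → ℤ) : nrm (a + b) ≤ nrm a + nrm b := by
  unfold nrm
  rw [← Finset.sum_add_distrib]
  exact Finset.sum_le_sum (fun i _ => abs_add_le _ _)

theorem nrm_neg {k : ℕ} (a : Fin k → ℤ) : nrm (-a) = nrm a := by
  unfold nrm
  simp

theorem nrm_sub_le {k : ℕ} (a b : Fin k → ℤ) : nrm (a - b) ≤ nrm a + nrm b := by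
  rw [sub_eq_add_neg, ← nrm_neg b]
  exact nrm_add_le _ _

theorem nrm_zero {k : ℕ} : nrm (0 : Fin k → ℤ) = 0 := by
  unfold nrm
  simp

theorem nrm_un {k : ℕ} (i : Fin k) : nrm (un i) = 1 := by
  unfold nrm un
  rw [Finset.sum_eq_single i]
  · simp
  · intro j _ hj
    rw [Pi.single_eq_of_ne hj]
    simp
  · simp

theorem surj_lin {k m : ℕ} (a : Fin k → ZMod m) (i : Fin k) (h : a i = 1) :
    Function.Surjective (lin a) := by
  intro y
  refine ⟨Pi.single i y, ?_⟩
  change ∑ j, a j * (Pi.single i y : Fin k → ZMod m) j = y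
  rw [Finset.sum_eq_single i]
  · simp [h]
  · intro j _ hj
    rw [Pi.single_eq_of_ne hj, mul_zero]
  · simp

theorem key {k : ℕ} (w : Fin k → ℤ) (hw : ∀ i, 0 < w i) (hinj : Function.Injective w)
    (z : Fin k → ℤ) (hz : z ≠ 0) (h : nrm z ≤ 2) : ∑ i, w i * z i ≠ 0 := by
  classical
  intro hS
  have hne : (Finset.univ.filter (fun i => z i ≠ 0)).Nonempty := by
    by_contra hc
    apply hz
    funext i
    by_contra hi
    exact hc ⟨i, by simpa using hi⟩
  obtain ⟨i, hi, hmax⟩ := Finset.exists_max_image _ w hne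
  simp only [Finset.mem_filter, Finset.mem_univ, true_and] at hi hmax
  have h1 : ∀ j ∈ Finset.univ.erase i, |w j * z j| ≤ (w i - 1) * |z j| := by
    intro j hj
    have hji := Finset.ne_of_mem_erase hj
    rw [abs_mul, abs_of_pos (hw j)]
    by_cases hzj : z j = 0
    · simp [hzj]
    · have h2 := hmax j hzj
      have h3 : w j ≠ w i := fun e => hji (hinj e)
      have h4 : w j ≤ w i - 1 := by
        have := lt_of_le_of_ne h2 h3
        omega
      exact mul_le_mul_of_nonneg_right h4 (abs_nonneg _)
  have h5 := Finset.add_sum_erase Finset.univ (fun j => w j * z j) (Finset.mem_univ i)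
  have h6 := Finset.add_sum_erase Finset.univ (fun j => |z j|) (Finset.mem_univ i)
  have h7 : |w i * z i| ≤ (w i - 1) * ∑ j ∈ Finset.univ.erase i, |z j| := by
    have h8 : w i * z i = - ∑ j ∈ Finset.univ.erase i, w j * z j := by
      have : (fun j => w j * z j) i + ∑ j ∈ Finset.univ.erase i, w j * z j = 0 := by
        rw [h5]
        exact hS
      simp only at this
      omega
    rw [h8, abs_neg, Finset.mul_sum]
    exact (Finset.abs_sum_le_sum_abs _ _).trans (Finset.sum_le_sum h1)
  unfold nrm at h
  rw [← h6] at h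
  rw [abs_mul, abs_of_pos (hw i)] at h7
  have h9 : 1 ≤ |z i| := Int.one_le_abs hi
  have h10 := hw i
  nlinarith

theorem abs_sum_le {k : ℕ} (w : Fin k → ℤ) (W : ℤ) (hw : ∀ i, 0 < w i) (hW : ∀ i, w i ≤ W)
    (z : Fin k → ℤ) : |∑ i, w i * z i| ≤ W * nrm z := by
  refine (Finset.abs_sum_le_sum_abs _ _).trans ?_
  unfold nrm
  rw [Finset.mul_sum]
  refine Finset.sum_le_sum (fun i _ => ?_)
  rw [abs_mul, abs_of_pos (hw i)]
  exact mul_le_mul_of_nonneg_right (hW i) (abs_nonneg _)

theorem dvd_of_eq {k N : ℕ} (w : Fin k → ℤ) (z : Fin k → ℤ)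
    (h : ∑ i, ((w i : ℤ) : ZMod N) * (z i : ZMod N) = 0) : (N : ℤ) ∣ ∑ i, w i * z i := by
  rw [← ZMod.intCast_zmod_eq_zero_iff_dvd]
  push_cast
  exact h

theorem pfk : T_PFK := by
  classical
  intro k hk
  refine ⟨⟨fun i => (((i.val : ℤ) + 1 : ℤ) : ZMod (2 * k + 1)), surj_lin _ ⟨0, hk⟩ (by simp), ?_⟩,
    ?_⟩
  · intro z hz hn hs
    have h1 := dvd_of_eq (N := 2 * k + 1) (fun i : Fin k => (i.val : ℤ) + 1) z hs
    have hpos : ∀ i : Fin k, (0 : ℤ) < (i.val : ℤ) + 1 := fun i => by positivity
    have h2 := abs_sum_le (fun i : Fin k => (i.val : ℤ) + 1) k hpos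
      (fun i => by have := i.isLt; omega) z
    have h3 : ∑ i : Fin k, ((i.val : ℤ) + 1) * z i = 0 := by
      refine Int.eq_zero_of_abs_lt_dvd h1 ?_
      refine lt_of_le_of_lt h2 ?_
      push_cast at hn ⊢
      have : (0 : ℤ) < k := by exact_mod_cast hk
      nlinarith
    exact key (fun i : Fin k => (i.val : ℤ) + 1) hpos
      (fun i j hij => by
        simp only at hij
        exact Fin.ext (by omega)) z hz hn h3
  · let f : Option (Fin k × Bool) → (Fin k → ℤ) := fun o =>
      match o with
      | none => 0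
      | some (i, true) => un i
      | some (i, false) => -un i
    have hf : Function.Injective f := by
      rintro (_ | ⟨i, b⟩) (_ | ⟨j, c⟩) h
      · rfl
      · exfalso
        have := congrFun h j
        cases c <;> simp [f, un] at this
      · exfalso
        have := congrFun h i
        cases b <;> simp [f, un] at this
      · have h1 := congrFun h i
        by_cases hij : i = j
        · subst hij
          cases b <;> cases c <;> simp [f, un] at h1 ⊢
        · exfalso
          cases b <;> cases c <;> simp [f, un, Pi.single_eq_of_ne hij] at h1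
    have hn : ∀ o, nrm (f o) ≤ 1 := by
      rintro (_ | ⟨i, b⟩)
      · simp [f, nrm_zero]
      · cases b
        · simp [f, nrm_neg, nrm_un]
        · simp [f, nrm_un]
    refine ⟨Finset.univ.image f, ?_, ?_, ?_⟩
    · exact Finset.mem_image.2 ⟨none, Finset.mem_univ _, rfl⟩
    · intro a ha b hb
      obtain ⟨o, _, rfl⟩ := Finset.mem_image.1 ha
      obtain ⟨o', _, rfl⟩ := Finset.mem_image.1 hb
      have h1 := nrm_sub_le (f o) (f o')
      have h2 := hn o
      have h3 := hn o'
      push_cast
      omega
    · rw [Finset.card_image_of_injective _ hf]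
      simp
      ring

/-- half of the optimal anticode of diameter three -/
def half {k : ℕ} (i₀ : Fin k) (p : Fin k × Bool) : Fin k → ℤ :=
  if p.1 = i₀ then (if p.2 then 0 else -un i₀) else (if p.2 then un p.1 else -un p.1)

theorem half_inj {k : ℕ} (i₀ : Fin k) : Function.Injective (half i₀) := by
  rintro ⟨i, b⟩ ⟨j, c⟩ h
  by_cases hi : i = i₀
  · by_cases hj : j = i₀
    · subst hi
      subst hj
      have := congrFun h j
      cases b <;> cases c <;> simp [half, un] at this ⊢
    · exfalso
      have := congrFun h j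
      cases b <;> cases c <;> simp [half, un, hi, hj] at this
  · have h1 := congrFun h i
    by_cases hj : j = i₀
    · exfalso
      cases b <;> cases c <;> simp [half, un, hi, hj] at h1
    · by_cases hij : i = j
      · subst hij
        cases b <;> cases c <;> simp [half, un, hi] at h1 ⊢
      · exfalso
        cases b <;> cases c <;> simp [half, un, hi, hj, Pi.single_eq_of_ne hij] at h1

theorem half_nrm {k : ℕ} (i₀ : Fin k) (p : Fin k × Bool) : nrm (half i₀ p) ≤ 1 := by
  obtain ⟨i, b⟩ := p
  by_cases hi : i = i₀ <;> cases b <;> simp [half, hi, nrm_zero, nrm_neg, nrm_un]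

theorem half_le {k : ℕ} (i₀ : Fin k) (p : Fin k × Bool) : half i₀ p i₀ ≤ 0 := by
  obtain ⟨i, b⟩ := p
  by_cases hi : i = i₀
  · cases b <;> simp [half, hi, un]
  · have hi' : i₀ ≠ i := fun e => hi e.symm
    cases b <;> simp [half, hi, un, hi']

theorem pf3 : T_PF3 := by
  classical
  intro k hk
  refine ⟨⟨fun i => ((2 * (i.val : ℤ) + 1 : ℤ) : ZMod (4 * k)), surj_lin _ ⟨0, hk⟩ (by simp), ?_⟩,
    ?_⟩
  · intro z hz hn hs
    have h1 := dvd_of_eq (N := 4 * k) (fun i : Fin k => 2 * (i.val : ℤ) + 1) z hs
    have hpos : ∀ i : Fin k, (0 : ℤ) < 2 * (i.val : ℤ) + 1 := fun i => by positivity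
    have h2 := abs_sum_le (fun i : Fin k => 2 * (i.val : ℤ) + 1) (2 * k - 1) hpos
      (fun i => by have := i.isLt; omega) z
    have hpar : (2 : ℤ) ∣ nrm z := by
      have h4 : (2 : ℤ) ∣ ∑ i : Fin k, (2 * (i.val : ℤ) + 1) * z i := by
        refine dvd_trans ?_ h1
        push_cast
        exact ⟨2 * k, by ring⟩
      have h5 : (2 : ℤ) ∣ (∑ i : Fin k, (2 * (i.val : ℤ) + 1) * z i) - nrm z := by
        unfold nrm
        rw [← Finset.sum_sub_distrib]
        refine Finset.dvd_sum (fun i _ => ?_)
        rcases abs_choice (z i) with h | h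
        · rw [h]
          exact ⟨i.val * z i, by ring⟩
        · rw [h]
          exact ⟨i.val * z i + z i, by ring⟩
      have := dvd_sub h4 h5
      rwa [sub_sub_cancel] at this
    have hn2 : nrm z ≤ 2 := by
      push_cast at hn
      omega
    have h3 : ∑ i : Fin k, (2 * (i.val : ℤ) + 1) * z i = 0 := by
      refine Int.eq_zero_of_abs_lt_dvd h1 ?_
      refine lt_of_le_of_lt h2 ?_
      push_cast
      have : (0 : ℤ) < k := by exact_mod_cast hk
      nlinarith
    exact key (fun i : Fin k => 2 * (i.val : ℤ) + 1) hpos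
      (fun i j hij => by
        simp only at hij
        exact Fin.ext (by omega)) z hz hn2 h3
  · let i₀ : Fin k := ⟨0, hk⟩
    let f : (Fin k × Bool) × Bool → (Fin k → ℤ) := fun p =>
      if p.2 then un i₀ - half i₀ p.1 else half i₀ p.1
    have hf : Function.Injective f := by
      rintro ⟨p, b⟩ ⟨q, c⟩ h
      have hp := half_le i₀ p
      have hq := half_le i₀ q
      have h1 := congrFun h i₀
      cases b <;> cases c
      · simp only [f, Bool.false_eq_true, if_false] at h
        rw [half_inj i₀ h]
      · exfalso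
        simp [f, un] at h1
        omega
      · exfalso
        simp [f, un] at h1
        omega
      · simp only [f, if_true] at h
        rw [half_inj i₀ (sub_right_injective h)]
    refine ⟨Finset.univ.image f, ?_, ?_, ?_⟩
    · refine Finset.mem_image.2 ⟨((i₀, true), false), Finset.mem_univ _, ?_⟩
      simp [f, half]
    · intro a ha b hb
      obtain ⟨⟨p, b⟩, _, rfl⟩ := Finset.mem_image.1 ha
      obtain ⟨⟨q, c⟩, _, rfl⟩ := Finset.mem_image.1 hb
      have h2 := half_nrm i₀ p
      have h3 := half_nrm i₀ q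
      have h4 := nrm_un i₀
      push_cast
      cases b <;> cases c
      · simp only [f, Bool.false_eq_true, if_false]
        have := nrm_sub_le (half i₀ p) (half i₀ q)
        omega
      · simp only [f, Bool.false_eq_true, if_false, if_true]
        have e : half i₀ p - (un i₀ - half i₀ q) = (half i₀ p + half i₀ q) - un i₀ := by abel
        rw [e]
        have h5 := nrm_sub_le (half i₀ p + half i₀ q) (un i₀)
        have h6 := nrm_add_le (half i₀ p) (half i₀ q)
        omega
      · simp only [f, Bool.false_eq_true, if_false, if_true]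
        have h5 := nrm_sub_le (un i₀ - half i₀ p) (half i₀ q)
        have h6 := nrm_sub_le (un i₀) (half i₀ p)
        omega
      · simp only [f, if_true]
        have e : un i₀ - half i₀ p - (un i₀ - half i₀ q) = half i₀ q - half i₀ p := by abel
        rw [e]
        have := nrm_sub_le (half i₀ q) (half i₀ p)
        omega
    · rw [Finset.card_image_of_injective _ hf]
      simp
      ring

end Pool.Agent.H49.TE
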